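import Pool.Agent.R343.SunDet5

set_option autoImplicit false

namespace Pool.Agent.Results.MP_dd0b6b_nt.SqrtSymbolCubic

open Finset Matrix

/-- the determinant `D_p^(3)`; the Jacobi symbol of Mathlib is the Legendre symbol when `p` is an
odd prime. The indices `j, k` of `Fin ((p - 1) / 2)` stand for `j + 1, k + 1`. -/
def D (p : ℕ) : ℤ :=
  (Matrix.of fun j k : Fin ((p - 1) / 2) =>
    ((((j : ℕ) : ℤ) + 1) ^ 2 - (((k : ℕ) : ℤ) + 1) ^ 2) ^ 3 *
    jacobiSym ((((j : ℕ) : ℤ) + 1) ^ 2 - (((k : ℕ) : ℤ) + 1) ^ 2) p).det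

/-- the number `N_p` of the `k` with `0 < k < p / 4` and `(k / p) = -1` -/
def N (p : ℕ) : ℕ := ((range p).filter fun k : ℕ => 0 < k ∧ 4 * k < p ∧
  jacobiSym (k : ℤ) p = -1).card

open Pool.Agent.R343.SunDet

theorem D_eq (p q : ℕ) [hp : Fact p.Prime] (hpq : p = 4 * q + 1) :
    D p = (mat p 3 (2 * q)).det := by
  have h1 : (p - 1) / 2 = 2 * q := by omega
  unfold D mat
  rw [h1]
  congr 1
  ext j l
  simp only [Matrix.of_apply]
  rw [jacobiSym.legendreSym.to_jacobiSym]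

theorem N_eq (p q : ℕ) [hp : Fact p.Prime] (hpq : p = 4 * q + 1) : N p = NN p q := by
  unfold N NN
  congr 1
  ext k
  rw [mem_filter, mem_filter, mem_range, mem_Ioc, jacobiSym.legendreSym.to_jacobiSym]
  constructor
  · rintro ⟨_, h2, h3, h4⟩
    exact ⟨⟨h2, by omega⟩, h4⟩
  · rintro ⟨⟨h2, h3⟩, h4⟩
    exact ⟨by omega, h2, by omega, h4⟩

theorem case5 (s : ℤ) (hs : s ^ 2 = D 5) :
    jacobiSym s 5 = (-1) ^ N 5 * jacobiSym (5 : ℕ) ((4 + (-1 : ℤ) ^ ((5 - 1) / 4)).toNat) := by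
  have h1 : D 5 = 729 := by
    unfold D
    have e1 : jacobiSym (1 - 2 ^ 2) 5 = -1 := by norm_num
    have e2 : jacobiSym (2 ^ 2 - 1) 5 = -1 := by norm_num
    change (Matrix.of fun j k : Fin 2 => _).det = _
    rw [Matrix.det_fin_two]
    norm_num [e1, e2]
  have h2 : N 5 = 0 := by
    unfold N
    rw [Finset.card_eq_zero, Finset.filter_eq_empty_iff]
    intro k _
    rintro ⟨h3, h4, h5⟩
    have : k = 1 := by omega
    rw [this] at h5
    norm_num at h5
  have h3 : ((4 + (-1 : ℤ) ^ ((5 - 1) / 4)).toNat) = 3 := by decide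
  rw [h2, h3, pow_zero, one_mul]
  have h4 : jacobiSym ((5 : ℕ) : ℤ) 3 = -1 := by norm_num
  rw [h4]
  have h5 : (s - 27) * (s + 27) = 0 := by
    rw [h1] at hs
    linear_combination hs
  rcases mul_eq_zero.1 h5 with h | h
  · have : s = 27 := by omega
    rw [this]; norm_num
  · have : s = -27 := by omega
    rw [this]; norm_num

/-- **Q1.** The identity holds for all primes `p ≡ 1 (mod 4)`. -/
theorem result (p : ℕ) (hp : p.Prime) (h4 : p % 4 = 1) :
    (∃ s : ℤ, 0 ≤ s ∧ s ^ 2 = D p) ∧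
    ∀ s : ℤ, s ^ 2 = D p →
      jacobiSym s p = (-1) ^ N p * jacobiSym p ((4 + (-1 : ℤ) ^ ((p - 1) / 4)).toNat) := by
  have : Fact p.Prime := ⟨hp⟩
  obtain ⟨q, hq⟩ : ∃ q, p = 4 * q + 1 := ⟨p / 4, by omega⟩
  constructor
  · obtain ⟨s, h0, hs⟩ := exists_sqrt p q 3 (2 * q) hq (by decide)
    exact ⟨s, h0, by rw [hs, D_eq p q hq]⟩
  · intro s hs
    by_cases hq1 : q ≤ 1
    · have : p = 5 := by
        rcases Nat.le_one_iff_eq_zero_or_eq_one.1 hq1 with h | h
        · rw [h] at hq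
          exact absurd hq hp.one_lt.ne'
        · rw [h] at hq
          omega
      subst this
      exact case5 s hs
    · rw [D_eq p q hq] at hs
      rw [← jacobiSym.legendreSym.to_jacobiSym, leg_m3 p q hq (by omega) s hs, N_eq p q hq]
      congr 2
      have h5 : (p - 1) / 4 = q := by omega
      rw [h5]
      rcases Nat.even_or_odd q with h | h
      · rw [if_pos (Nat.even_iff.1 h), h.neg_one_pow]
        rfl
      · have h9 := Nat.odd_iff.1 h
        rw [if_neg (by omega), h.neg_one_pow]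
        rfl

end Pool.Agent.Results.MP_dd0b6b_nt.SqrtSymbolCubic
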